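import Pool.Agent.Helper42.QD.Stmts

namespace Pool.Agent.Helper42.QD

open VD

variable {D k : Type} [DivisionRing D] [Field k] {c : VD D k} {R : KM c}

theorem a_Tstable {h : ℕ}
    (hN : ∀ f1 : Sp c, Fix R ((h : ℤ) + 1) f1 → ∀ b, c.P h b → R.rho (nn b) f1 = f1)
    (hM : ∀ f1 : Sp c, Fix R ((h : ℤ) + 1) f1 → ∀ b, c.P h b → R.rho (nm b) f1 = f1)
    (f1 : Sp c) (hf : Fix R ((h : ℤ) + 1) f1) : Fix R ((h : ℤ) + 1) (R.rho (dg c.T 1) f1) := by
  intro g hg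
  obtain ⟨y, u1, u2, b, hy, hu1, hu2, hb, _, _, rfl⟩ := KK_fac (by omega) hg
  have hT := c.T_ne
  have e1 : nn b * dg c.T 1 = dg c.T 1 * nn (c.T⁻¹ * b) := by
    rw [dg_nn hT one_ne_zero, inv_one, mul_one, mul_inv_cancel_left₀ hT]
  have e3 : nm y * dg c.T 1 = dg c.T 1 * nm (y * c.T) := by
    rw [dg_nm hT one_ne_zero, one_mul, mul_inv_cancel_right₀ hT]
  have h1 := (one_add (P_mono (by omega) hu1)).1
  have h2 := (one_add (P_mono (by omega) hu2)).1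
  have hu3 : c.P ((h : ℤ) + 1) (c.T⁻¹ * u1 * c.T) := P_conj' hT hu1
  have h3 := (one_add (P_mono (by omega) hu3)).1
  have e2 : dg (1 + u1) (1 + u2) * dg c.T 1 = dg c.T 1 * dg (1 + c.T⁻¹ * u1 * c.T) (1 + u2) := by
    rw [dg_mul h1 h2 hT one_ne_zero, dg_mul hT one_ne_zero h3 h2, mul_one, one_mul]
    congr 1
    rw [add_mul, mul_add, one_mul, mul_one, ← mul_assoc, ← mul_assoc, mul_inv_cancel₀ hT, one_mul]
  have hb' : c.P (h : ℤ) (c.T⁻¹ * b) := by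
    have := P_mul (P_inv (c := c) hT) hb
    rw [c.v_T] at this
    exact P_mono (by omega) this
  have hy' : c.P (h : ℤ) (y * c.T) := by
    have := P_mul hy (P_self (c := c) (x := c.T))
    rw [c.v_T] at this
    exact P_mono (by omega) this
  have e4 : nm y * dg (1 + u1) (1 + u2) * nn b * dg c.T 1 =
      dg c.T 1 * nm (y * c.T) * dg (1 + c.T⁻¹ * u1 * c.T) (1 + u2) * nn (c.T⁻¹ * b) := by
    rw [mul_assoc (nm y * dg (1 + u1) (1 + u2)), e1, ← mul_assoc, mul_assoc (nm y), e2, ← mul_assoc, e3]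
  rw [← rho_mul, e4, rho_mul, hN f1 hf _ hb', rho_mul, hf _ (KK_dg (by omega) hu3 hu2), rho_mul,
    hM f1 hf _ hy']

theorem a_claim {h : ℕ} {f : Sp c} (hf0 : f ≠ 0) (hf : Fix R ((h : ℤ) + 1) f) :
    ∃ f1 : Sp c, Fix R ((h : ℤ) + 1) f1 ∧ ∃ x1 : D, x1 ≠ 0 ∧ c.v x1 = -h ∧ f1.1 x1 ≠ 0 := by
  by_contra hcon
  have hcon' : ∀ f1 : Sp c, Fix R ((h : ℤ) + 1) f1 → ∀ x1 : D, x1 ≠ 0 → c.v x1 = -h → f1.1 x1 = 0 := by
    intro f1 h1 x1 h2 h3
    by_contra h4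
    exact hcon ⟨f1, h1, x1, h2, h3, h4⟩
  have hN : ∀ f1 : Sp c, Fix R ((h : ℤ) + 1) f1 → ∀ b, c.P h b → R.rho (nn b) f1 = f1 := by
    intro f1 h1 b hb
    refine nn_of_supp (i := h) (fun x hx => ?_) hb
    have h2 := Fix_supp h1 hx
    have hx0 : x ≠ 0 := by
      intro h0
      rw [h0] at hx
      exact hx (val_zero f1)
    rw [P_iff hx0] at h2 ⊢
    by_contra h3
    exact hx (hcon' f1 h1 x hx0 (by omega))
  have hM : ∀ f1 : Sp c, Fix R ((h : ℤ) + 1) f1 → ∀ b, c.P h b → R.rho (nm b) f1 = f1 := by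
    intro f1 h1 b hb
    have h2 := hN _ (Fix_KO (R := R) KO_ww h1) b hb
    rw [← ww_nn_ww, rho_mul, rho_mul, h2, ← rho_mul, ww_ww, rho_one]
  obtain ⟨x0, hx0, hx1⟩ := exists_ne hf0
  have key : ∀ n : ℕ, ∃ f1 : Sp c, Fix R ((h : ℤ) + 1) f1 ∧ f1.1 (x0 * (c.T ^ n)⁻¹) ≠ 0 := by
    intro n
    induction n with
    | zero => exact ⟨f, hf, by rw [pow_zero, inv_one, mul_one]; exact hx1⟩
    | succ n ih =>
      obtain ⟨f1, h1, h2⟩ := ih
      refine ⟨R.rho (dg c.T 1) f1, a_Tstable hN hM f1 h1, ?_⟩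
      rw [rt_left c.T_ne, pow_succ', mul_inv_rev, ← mul_assoc, inv_mul_cancel_right₀ c.T_ne]
      exact h2
  obtain ⟨f1, h1, h2⟩ := key ((c.v x0).natAbs + h + 1)
  have h3 := Fix_supp h1 h2
  have hT : c.T ^ ((c.v x0).natAbs + h + 1) ≠ 0 := pow_ne_zero _ c.T_ne
  have h4 : x0 * (c.T ^ ((c.v x0).natAbs + h + 1))⁻¹ ≠ 0 := mul_ne_zero hx0 (inv_ne_zero hT)
  rw [P_iff h4, c.v_mul _ _ hx0 (inv_ne_zero hT), v_inv hT] at h3
  have h5 : c.v (c.T ^ ((c.v x0).natAbs + h + 1)) = (((c.v x0).natAbs + h + 1 : ℕ) : ℤ) := by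
    have := v_T_zpow (c := c) (((c.v x0).natAbs + h + 1 : ℕ) : ℤ)
    rwa [zpow_natCast] at this
  rw [h5] at h3
  push_cast at h3
  have h6 : c.v x0 ≤ |c.v x0| := le_abs_self _
  omega

theorem st_A : ST_A := by
  intro D k _ _ _ c R h f hf0 hf x hx hvx g hg
  obtain ⟨f1, h1, x1, hx1, hv1, hne⟩ := a_claim hf0 hf
  obtain ⟨f', hf', he⟩ := cut_Fix (i := 0) le_rfl h1 x1
  have hcut : ∀ y, f'.1 y = f1.1 x1 * ind c x1 1 y := by
    intro y
    rw [he, sub_zero]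
    by_cases hy : c.P 1 (y - x1)
    · rw [cut_apply_of hy, ind_apply_of hy, mul_one]
      have h2 : c.P ((h : ℤ) + 1) (x1⁻¹ * (y - x1)) := by
        have := P_mul (P_inv (c := c) hx1) hy
        rw [hv1] at this
        exact P_mono (by omega) this
      have h3 := Fix_right (by omega) h1 (x := x1) h2
      have h4 : x1 * (1 + x1⁻¹ * (y - x1)) = y := by
        rw [mul_add, mul_one, mul_inv_cancel_left₀ hx1]
        abel
      rw [h4] at h3
      exact h3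
    · rw [cut_apply_of_not hy, ind_apply_of_not hy, mul_zero]
  have ha0 : x⁻¹ * x1 ≠ 0 := mul_ne_zero (inv_ne_zero hx) hx1
  have hva : c.v (x⁻¹ * x1) = 0 := by
    rw [c.v_mul _ _ (inv_ne_zero hx) hx1, v_inv hx, hvx, hv1]
    omega
  have hfix : Fix R ((h : ℤ) + 1) (R.rho (dg (x⁻¹ * x1) 1) ((f1.1 x1)⁻¹ • f')) := by
    apply Fix_KO (KO_dg ha0 one_ne_zero hva v_one)
    intro z hz
    rw [map_smul, hf' z hz]
  have heq : g = R.rho (dg (x⁻¹ * x1) 1) ((f1.1 x1)⁻¹ • f') := by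
    apply Sp_ext
    intro y
    rw [rt_left ha0, hg]
    change _ = (f1.1 x1)⁻¹ * f'.1 (y * (x⁻¹ * x1))
    rw [hcut, ← mul_assoc, inv_mul_cancel₀ hne, one_mul]
    have h5 : y * (x⁻¹ * x1) - x1 = (y - x) * (x⁻¹ * x1) := by
      rw [sub_mul, mul_inv_cancel_left₀ hx]
    by_cases hy : c.P 1 (y - x)
    · rw [ind_apply_of hy, ind_apply_of]
      rw [h5]
      have := P_mul hy (P_self (c := c) (x := x⁻¹ * x1))
      rw [hva] at this
      exact P_mono (by omega) this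
    · rw [ind_apply_of_not hy, ind_apply_of_not]
      rw [h5]
      intro h6
      apply hy
      have := P_of_mul_right ha0 h6
      rw [hva] at this
      exact P_mono (by omega) this
  rw [heq]
  exact hfix

end Pool.Agent.Helper42.QD
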