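import Pool.Agent.Helper58.CP.Stmts

/-! Row GEN of the table qr_mods: the genus is nonnegative. -/

namespace QD61

open Finset CP

open Classical in
theorem st_GEN (h1 : ST_TREE) (h2 : ST_COT) : ST_GEN := by
  intro D V F _ _ _ rot opp vt fc hne hoo hon hvr hff hvs hfs hconn
  obtain ⟨d0⟩ := hne
  obtain ⟨T, -, hTo, hTc, -, hTK⟩ := h1 D V opp vt Finset.univ (vt d0) hoo hon
    (fun d _ => Finset.mem_univ _) (by
      intro S hr hS
      have h3 : {d : D | vt d ∈ S} = Set.univ := by
        refine hconn _ ⟨d0, hr⟩ ?_ ?_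
        · intro d hd
          change vt (rot d) ∈ S
          rw [hvr]
          exact hd
        · intro d hd
          exact hS d (Finset.mem_univ _) hd
      refine Set.eq_univ_of_forall fun v => ?_
      obtain ⟨d, rfl⟩ := hvs v
      have h4 : d ∈ {d : D | vt d ∈ S} := by rw [h3]; exact Set.mem_univ _
      exact h4)
  have h5 := h2 D V F rot opp vt fc T (vt d0) hoo hvr hff hfs hTo hconn (hTK (ZMod 2))
  obtain ⟨T2, hT2, -, hT2c, -, -⟩ := h1 D F opp fc Tᶜ (fc d0) hoo hon
    (by
      intro d hd
      rw [Finset.mem_compl] at hd ⊢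
      intro h
      apply hd
      have h6 := hTo _ h
      rwa [hoo] at h6)
    (by
      intro S hr hS
      refine h5 S ⟨_, hr⟩ ?_
      intro d hd
      exact hS d (Finset.mem_compl.2 hd))
  have h7 : T2.card ≤ Tᶜ.card := Finset.card_le_card hT2
  rw [Finset.card_compl] at h7
  have h8 : T.card ≤ Fintype.card D := Finset.card_le_univ T
  omega

end QD61
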